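import Mathlib
import Pool.Agent.H82.SC.Coh

/-!
# The unrestricted red size of a quiver is invariant under mutation
-/

set_option autoImplicit false
set_option linter.unusedSectionVars false

namespace Pool.Agent.Results.MP_df9ae0_co.MutationInvariance

open Pool.Agent.H82.SC

universe u

/-- A quiver on the vertex set `W`, given by its numbers of arrows: `arr i j` is the number of
arrows from `i` to `j`. There are no loops and no oriented 2-cycles. -/
structure Qv (W : Type u) where
  /-- the number of arrows from the first to the second vertex -/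
  arr : W → W → ℕ
  loopless : ∀ i, arr i i = 0
  no_two_cycle : ∀ i j, arr i j = 0 ∨ arr j i = 0

/-- Step 1 of the mutation at `k`: for every path `i → k → j` add an arrow `i → j`. -/
def addPaths {W : Type u} (k : W) (a : W → W → ℕ) : W → W → ℕ :=
  fun i j => a i j + a i k * a k j

/-- Step 2 of the mutation at `k`: reverse every arrow incident to `k`. -/
def reverseAt {W : Type u} [DecidableEq W] (k : W) (a : W → W → ℕ) : W → W → ℕ :=
  fun i j => if i = k ∨ j = k then a j i else a i j

/-- Step 3 of the mutation: delete a maximal collection of oriented 2-cycles, and delete every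
arrow between two frozen vertices. -/
def cancelArrows {W : Type u} (frozen : W → Prop) [DecidablePred frozen] (a : W → W → ℕ) :
    W → W → ℕ :=
  fun i j => if frozen i ∧ frozen j then 0 else a i j - min (a i j) (a j i)

/-- Mutation at the vertex `k` of a quiver in which the vertices satisfying `frozen` are
frozen. -/
def mutate {W : Type u} [DecidableEq W] (frozen : W → Prop) [DecidablePred frozen] (k : W)
    (Q : Qv W) : Qv W where
  arr := cancelArrows frozen (reverseAt k (addPaths k Q.arr))
  loopless i := by
    simp only [cancelArrows]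
    split_ifs <;> simp
  no_two_cycle i j := by
    simp only [cancelArrows]
    split_ifs <;> omega

/-- Mutation of an unframed quiver (no vertex is frozen). -/
def Qv.mutation {V : Type u} [DecidableEq V] (Q : Qv V) (k : V) : Qv V :=
  mutate (fun _ => False) k Q

/-- The framed quiver: the mutable vertices are the `Sum.inl i`, the frozen ones the `Sum.inr i`,
and there is one arrow `Sum.inl i → Sum.inr i` for every `i`. -/
def framed {V : Type u} [DecidableEq V] (Q : Qv V) : Qv (V ⊕ V) where
  arr x y := match x, y with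
    | Sum.inl i, Sum.inl j => Q.arr i j
    | Sum.inl i, Sum.inr j => if i = j then 1 else 0
    | Sum.inr _, _ => 0
  loopless x := by
    rcases x with i | i
    · exact Q.loopless i
    · rfl
  no_two_cycle x y := by
    rcases x with i | i <;> rcases y with j | j
    · exact Q.no_two_cycle i j
    · right; rfl
    · left; rfl
    · left; rfl

/-- The framed quiver of `Q` after the mutations at the mutable vertices in the list `p`, in this
order. -/
def mutated {V : Type u} [DecidableEq V] (Q : Qv V) (p : List V) : Qv (V ⊕ V) :=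
  p.foldl (fun R k => mutate (fun x : V ⊕ V => x.isRight = true) (Sum.inl k) R) (framed Q)

/-- The mutable vertex `i` is red: there is an arrow from a frozen vertex to `i`. -/
def IsRed {V : Type u} (R : Qv (V ⊕ V)) (i : V) : Prop := ∃ j, 0 < R.arr (Sum.inr j) (Sum.inl i)

/-- The numbers of red vertices that occur after finite sequences of mutations of the framed
quiver of `Q`. -/
def redCounts {V : Type u} [DecidableEq V] (Q : Qv V) : Set ℕ :=
  {m | ∃ p : List V, m = Set.ncard {i : V | IsRed (mutated Q p) i}}

/-- The unrestricted red size. -/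
noncomputable def uRed {V : Type u} [DecidableEq V] (Q : Qv V) : ℕ := sSup (redCounts Q)

/-! ### comparison with the matrix description -/

/-- signed numbers of arrows -/
def bm {W : Type u} (a : W → W → ℕ) (i j : W) : ℤ := (a i j : ℤ) - a j i

theorem arr_eq {W : Type u} (Q : Qv W) (i j : W) : (Q.arr i j : ℤ) = max (bm Q.arr i j) 0 := by
  unfold bm
  rcases Q.no_two_cycle i j with h | h <;> rw [h] <;> simp

theorem arr_eq' {W : Type u} (Q : Qv W) (i j : W) :
    (Q.arr j i : ℤ) = max (- bm Q.arr i j) 0 := by
  rw [arr_eq Q j i]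
  congr 1
  unfold bm
  ring

theorem bm_mutate {W : Type u} [DecidableEq W] (frozen : W → Prop) [DecidablePred frozen] (k : W)
    (Q : Qv W) (i j : W) (hij : ¬ (frozen i ∧ frozen j)) :
    bm (mutate frozen k Q).arr i j = if i = k ∨ j = k then - bm Q.arr i j else
      bm Q.arr i j + max (bm Q.arr i k) 0 * max (bm Q.arr k j) 0 -
        max (- bm Q.arr i k) 0 * max (- bm Q.arr k j) 0 := by
  have hji : ¬ (frozen j ∧ frozen i) := fun h => hij ⟨h.2, h.1⟩
  have e1 : ∀ a : W → W → ℕ, bm (cancelArrows frozen a) i j = (a i j : ℤ) - a j i := by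
    intro a
    simp only [bm, cancelArrows, if_neg hij, if_neg hji]
    omega
  have e2 : bm (mutate frozen k Q).arr i j = bm (cancelArrows frozen
    (reverseAt k (addPaths k Q.arr))) i j := rfl
  rw [← arr_eq, ← arr_eq, ← arr_eq', ← arr_eq', e2, e1]
  simp only [reverseAt, addPaths]
  by_cases h : i = k ∨ j = k
  · have h' : j = k ∨ i = k := h.symm
    rw [if_pos h, if_pos h, if_pos h', bm]
    rcases h with rfl | rfl
    · rw [Q.loopless]; push_cast; ring
    · rw [Q.loopless]; push_cast; ring
  · have h' : ¬ (j = k ∨ i = k) := fun h' => h h'.symm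
    rw [if_neg h, if_neg h, if_neg h', bm]
    push_cast
    ring

/-- the matrix data of a framed quiver -/
def toSt {V : Type u} (R : Qv (V ⊕ V)) : St V :=
  (fun i j => bm R.arr (Sum.inl j) (Sum.inl i), fun j i => bm R.arr (Sum.inl i) (Sum.inr j))

theorem toSt_mutate {V : Type u} [Fintype V] [DecidableEq V] (R : Qv (V ⊕ V)) (k : V) :
    toSt (mutate (fun x : V ⊕ V => x.isRight = true) (Sum.inl k) R) = stp k (toSt R) := by
  refine Prod.ext ?_ ?_
  · funext i j
    change bm _ (Sum.inl j) (Sum.inl i) = mu k (toSt R).1 i j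
    rw [bm_mutate _ _ _ _ _ (by simp)]
    simp only [mu, toSt, Sum.inl.injEq]
    by_cases h : i = k ∨ j = k
    · rw [if_pos h, if_pos h.symm]
    · rw [if_neg h, if_neg (fun h' => h h'.symm)]
      ring
  · funext j i
    change bm _ (Sum.inl i) (Sum.inr j) = tm (toSt R).1 k ((toSt R).2 j) i
    rw [bm_mutate _ _ _ _ _ (by simp)]
    simp only [tm, toSt, Sum.inl.injEq, reduceCtorEq, or_false]
    by_cases h : i = k
    · subst h; rw [if_pos rfl]
    · rw [if_neg h, if_neg h]

theorem toSt_framed {V : Type u} [DecidableEq V] (Q : Qv V) :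
    toSt (framed Q) = ini (tp (bm Q.arr)) := by
  refine Prod.ext ?_ ?_
  · funext i j
    rfl
  · funext j i
    change ((if i = j then 1 else 0 : ℕ) : ℤ) - ((0 : ℕ) : ℤ) = if i = j then 1 else 0
    split_ifs <;> simp

theorem toSt_mutated {V : Type u} [Fintype V] [DecidableEq V] (Q : Qv V) (p : List V) :
    toSt (mutated Q p) = rn (ini (tp (bm Q.arr))) p := by
  have key : ∀ (p : List V) (R : Qv (V ⊕ V)),
      toSt (p.foldl (fun R k => mutate (fun x : V ⊕ V => x.isRight = true) (Sum.inl k) R) R) =
        rn (toSt R) p := by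
    intro p
    induction p with
    | nil => intro R; rfl
    | cons k p ih =>
      intro R
      rw [List.foldl_cons, ih, toSt_mutate, rn_cons]
  rw [mutated, key, toSt_framed]

theorem isRed_iff {V : Type u} (R : Qv (V ⊕ V)) (i : V) : IsRed R i ↔ Red (toSt R) i := by
  refine exists_congr fun j => ?_
  change 0 < R.arr (Sum.inr j) (Sum.inl i) ↔
    (R.arr (Sum.inl i) (Sum.inr j) : ℤ) - R.arr (Sum.inr j) (Sum.inl i) < 0
  have := R.no_two_cycle (Sum.inl i) (Sum.inr j)
  omega

theorem skew_bm {V : Type u} (Q : Qv V) : Skew (bm Q.arr) := fun i j => by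
  unfold bm; ring

theorem bm_mutation {V : Type u} [DecidableEq V] (Q : Qv V) (k : V) :
    bm (Q.mutation k).arr = mu k (bm Q.arr) := by
  funext i j
  rw [Qv.mutation, bm_mutate _ _ _ _ _ (by simp)]
  rfl

theorem incl_of {V : Type u} [Fintype V] [DecidableEq V] (Q Q' : Qv V) (k : V)
    (h : bm Q'.arr = mu k (bm Q.arr)) (p : List V) :
    ∃ q : List V, {i : V | IsRed (mutated Q p) i} ⊆ {i : V | IsRed (mutated Q' q) i} := by
  have hω : Skew (tp (bm Q.arr)) := (skew_bm Q).tp
  obtain ⟨q, hq⟩ := red_mu hω k p
  refine ⟨q, fun i hi => ?_⟩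
  rw [Set.mem_ofPred_eq, isRed_iff, toSt_mutated] at hi ⊢
  rw [h, tp_mu]
  exact hq i hi

theorem bdd {V : Type u} [Fintype V] [DecidableEq V] (Q : Qv V) : BddAbove (redCounts Q) := by
  refine ⟨Fintype.card V, ?_⟩
  rintro m ⟨p, rfl⟩
  rw [← Nat.card_eq_fintype_card, ← Set.ncard_univ]
  exact Set.ncard_le_ncard (Set.subset_univ _) Set.finite_univ

theorem nonempty {V : Type u} [DecidableEq V] (Q : Qv V) : (redCounts Q).Nonempty :=
  ⟨_, [], rfl⟩

theorem greatest {V : Type u} [Fintype V] [DecidableEq V] (Q : Qv V) :
    IsGreatest (redCounts Q) (uRed Q) :=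
  ⟨Nat.sSup_mem (nonempty Q) (bdd Q), fun _ hm => le_csSup (bdd Q) hm⟩

theorem le_of {V : Type u} [Fintype V] [DecidableEq V] (Q Q' : Qv V) (k : V)
    (h : bm Q'.arr = mu k (bm Q.arr)) : uRed Q ≤ uRed Q' := by
  obtain ⟨p, hp⟩ := (greatest Q).1
  obtain ⟨q, hq⟩ := incl_of Q Q' k h p
  rw [hp]
  exact (Set.ncard_le_ncard hq (Set.toFinite _)).trans ((greatest Q').2 ⟨q, rfl⟩)

/-- For every quiver `Q` on a finite vertex set, `uRed Q` is the maximum of the numbers of red
vertices over all finite mutation sequences of the framed quiver, and this maximum does not change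
when `Q` is replaced by its mutation at any vertex `k`. -/
theorem result {V : Type u} [Fintype V] [DecidableEq V] :
    (∀ Q : Qv V, IsGreatest (redCounts Q) (uRed Q)) ∧
      ∀ (Q : Qv V) (k : V), uRed (Q.mutation k) = uRed Q := by
  refine ⟨greatest, fun Q k => le_antisymm ?_ ?_⟩
  · exact le_of _ _ k (by rw [bm_mutation, mu_mu])
  · exact le_of _ _ k (bm_mutation Q k)

end Pool.Agent.Results.MP_df9ae0_co.MutationInvariance
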